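import Pool.Agent.J4H3.EQ.Stm

set_option autoImplicit false

/-! # Project EQ (helper3): MASS, the integral of the defect over a large rectangle (helper1) -/

namespace Pool.Agent.J4H1.EQ

open Complex MeasureTheory Filter Topology Set
open Pool.Agent.J4H4.NG (EE gam)
open Pool.Agent.J4H3.EQ

theorem lint_biUnion_le {ι : Type} [DecidableEq ι] (s : Finset ι) (c : ι → Set ℂ) (F : ℂ → ENNReal) :
    ∫⁻ w in ⋃ i ∈ s, c i, F w ≤ ∑ i ∈ s, ∫⁻ w in c i, F w := by
  induction s using Finset.induction_on with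
  | empty => simp
  | insert i s hi ih =>
    rw [Finset.set_biUnion_insert, Finset.sum_insert hi]
    exact (lintegral_union_le _ _ _).trans (by gcongr)

theorem ev_mass {a κ δ C ε : ℝ} (T1 T2 T3 : ℝ) (ha : 0 < a) (hκ : 0 < κ) (hε : 0 < ε) (hC : 0 < C) :
    ∀ᶠ T : ℝ in atTop, T1 ≤ T ∧ T2 ≤ T ∧ T3 ≤ T ∧ 3 ≤ T ∧ κ * Real.log T ≤ T ∧
      (3 * a / κ) * C * Real.log T ≤ ε / 3 * T := by
  have hlo : Tendsto (fun T : ℝ => Real.log T / T) atTop (𝓝 0) := by
    have := Real.isLittleO_log_id_atTop.tendsto_div_nhds_zero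
    simpa using this
  have h2 : ∀ c d : ℝ, 0 < d → ∀ᶠ T : ℝ in atTop, c * Real.log T ≤ d * T := by
    intro c d hd
    have h3 := (hlo.const_mul c)
    rw [mul_zero] at h3
    filter_upwards [h3.eventually (gt_mem_nhds hd), eventually_gt_atTop 0] with T hT hT0
    have h4 : c * (Real.log T / T) * T ≤ d * T := by nlinarith
    have h5 : c * (Real.log T / T) * T = c * Real.log T := by field_simp
    linarith
  filter_upwards [eventually_ge_atTop T1, eventually_ge_atTop T2, eventually_ge_atTop T3,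
    eventually_ge_atTop 3, h2 κ 1 one_pos, h2 ((3 * a / κ) * C) (ε / 3) (by positivity)] with T e1 e2 e3 e4 e5 e6
  exact ⟨e1, e2, e3, e4, by linarith, e6⟩

theorem t_MASS : J_MASS := by
  classical
  intro hGPT hSQ hFARM a A ε ha hε
  obtain ⟨C, T1, hC, hT1, hfar⟩ := hFARM a A ha
  obtain ⟨κ, hκ0, hκ1, hκa, hκε⟩ : ∃ κ : ℝ, 0 < κ ∧ κ ≤ 1 ∧ κ ≤ a ∧ κ ^ 2 ≤ ε / 5400 := by
    refine ⟨min (min 1 a) (Real.sqrt (ε / 5400)), lt_min (lt_min one_pos ha) (Real.sqrt_pos.2 (by positivity)),
      (min_le_left _ _).trans (min_le_left _ _), (min_le_left _ _).trans (min_le_right _ _), ?_⟩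
    have h1 : min (min 1 a) (Real.sqrt (ε / 5400)) ≤ Real.sqrt (ε / 5400) := min_le_right _ _
    have h0 : 0 ≤ min (min 1 a) (Real.sqrt (ε / 5400)) :=
      le_min (le_min zero_le_one ha.le) (Real.sqrt_nonneg _)
    calc min (min 1 a) (Real.sqrt (ε / 5400)) ^ 2 ≤ Real.sqrt (ε / 5400) ^ 2 := pow_le_pow_left₀ h0 h1 2
      _ = ε / 5400 := Real.sq_sqrt (by positivity)
  set μ : ℝ := κ / (8 * a) with hμ
  have hμ0 : 0 < μ := by positivity
  have hμ2 : μ < 1 / 2 := by
    rw [hμ, div_lt_iff₀ (by positivity)]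
    linarith
  have haμ : 2 * a * μ = κ / 4 := by
    rw [hμ]; field_simp; ring
  set δ : ℝ := ε * κ ^ 2 / (9 * a * C) with hδ
  have hδ0 : 0 < δ := by positivity
  obtain ⟨A', T2, hA', hT2, hgpt⟩ := hGPT a μ κ δ ha hμ0 hμ2 hκ0 hδ0
  obtain ⟨T3, hT3, hsq⟩ := hSQ a κ A A' ha hκ0 hκ1
  obtain ⟨T0, hT0⟩ := eventually_atTop.mp (ev_mass (δ := δ) T1 T2 T3 ha hκ0 hε hC)
  refine ⟨max T0 2, le_max_right _ _, fun T hT => ?_⟩
  obtain ⟨e1, e2, e3, e4, e5, e6⟩ := hT0 T ((le_max_left _ _).trans hT)
  set L : ℝ := Real.log T with hL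
  have hTpos : 0 < T := by linarith
  have hL0 : 0 < L := Real.log_pos (by linarith)
  set l : ℝ := κ * L with hl
  have hl0 : 0 < l := by positivity
  have hlL : l ≤ L := by rw [hl]; nlinarith
  have hlaL : l ≤ a * L := by rw [hl]; gcongr
  set D : ℂ → ENNReal := fun w => ENNReal.ofReal (pot a w + A * L - Real.log ‖EE a w‖) with hD
  set J : ℕ := ⌊2 * a / κ⌋₊ with hJ
  set N : ℕ := ⌊T / l⌋₊ with hN
  have hNl : (N : ℝ) * l ≤ T := by
    have := Nat.floor_le (show 0 ≤ T / l by positivity)
    rw [← hN] at this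
    rwa [le_div_iff₀ hl0] at this
  have hJκ : (J : ℝ) * κ ≤ 2 * a := by
    have := Nat.floor_le (show 0 ≤ 2 * a / κ by positivity)
    rw [← hJ] at this
    rwa [le_div_iff₀ hκ0] at this
  have hJl : (J : ℝ) * l ≤ 2 * (a * L) := by
    rw [hl]
    nlinarith
  -- the cells
  set X : ℕ → ℝ := fun j => -(a * L) + j * l with hX
  set V : ℕ → ℝ := fun i => T + i * l with hV
  set cell : ℕ × ℕ → Set ℂ := fun p =>
    Rect (X p.2 - l) (X p.2 + l) (V p.1) (V p.1 + l) ∩ {w | -(a * L) ≤ w.re ∧ w.re ≤ a * L} with hcell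
  have hcover : Rect (-(a * L)) (a * L) T (2 * T) ⊆
      ⋃ p ∈ (Finset.range (N + 1) ×ˢ Finset.range (J + 1)), cell p := by
    rintro w ⟨h1, h2, h3, h4⟩
    have h5 : 0 ≤ (w.im - T) / l := div_nonneg (by linarith) hl0.le
    have h6 := Nat.floor_le h5
    have h7 := Nat.lt_floor_add_one ((w.im - T) / l)
    rw [le_div_iff₀ hl0] at h6
    rw [div_lt_iff₀ hl0] at h7
    have h8 : ⌊(w.im - T) / l⌋₊ ≤ N := Nat.floor_le_floor (by gcongr; linarith)
    have g5 : 0 ≤ (w.re + a * L) / l := div_nonneg (by linarith) hl0.le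
    have g6 := Nat.floor_le g5
    have g7 := Nat.lt_floor_add_one ((w.re + a * L) / l)
    rw [le_div_iff₀ hl0] at g6
    rw [div_lt_iff₀ hl0] at g7
    have g8 : ⌊(w.re + a * L) / l⌋₊ ≤ J := by
      apply Nat.floor_le_floor
      rw [div_le_div_iff₀ hl0 hκ0, hl]
      nlinarith
    simp only [Set.mem_iUnion]
    refine ⟨(⌊(w.im - T) / l⌋₊, ⌊(w.re + a * L) / l⌋₊), ?_, ?_⟩
    · rw [Finset.mem_product, Finset.mem_range, Finset.mem_range]
      exact ⟨by simpa using Nat.lt_succ_of_le h8, by simpa using Nat.lt_succ_of_le g8⟩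
    · refine ⟨⟨?_, ?_, ?_, ?_⟩, h1, h2⟩ <;> simp only [hX, hV] <;> nlinarith
  -- the levels
  have hlev : ∀ j ∈ Finset.range (J + 1), ∃ x' : ℝ, 2 * a * μ * L ≤ |x'| ∧ |x'| ≤ a * (1 - 2 * μ) * L ∧
      |x' - X j| ≤ l ∧ |X j| ≤ a * L := by
    intro j hj
    have hj1 : (j : ℝ) ≤ J := by
      have := Finset.mem_range.1 hj
      exact_mod_cast (by omega : j ≤ J)
    have hj0 : (0 : ℝ) ≤ j := Nat.cast_nonneg j
    have hx1 : -(a * L) ≤ X j := by simp only [hX]; nlinarith
    have hx2 : X j ≤ a * L := by simp only [hX]; nlinarith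
    have hxa : |X j| ≤ a * L := abs_le.2 ⟨by linarith, hx2⟩
    have c1 : 2 * a * μ * L = l / 4 := by rw [haμ, hl]; ring
    have c2 : a * (1 - 2 * μ) * L = a * L - l / 4 := by
      have : a * (1 - 2 * μ) * L = a * L - 2 * a * μ * L := by ring
      rw [this, c1]
    rw [c1, c2]
    rcases le_or_gt 0 (X j) with hs | hs
    · rw [abs_of_nonneg hs] at hxa
      rcases le_or_gt (X j) (l / 4) with h1 | h1
      · refine ⟨l / 4, ?_, ?_, ?_, by rwa [abs_of_nonneg hs]⟩
        · rw [abs_of_pos (by positivity)]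
        · rw [abs_of_pos (by positivity)]; linarith
        · rw [abs_le]; constructor <;> linarith
      · rcases le_or_gt (X j) (a * L - l / 4) with h2 | h2
        · refine ⟨X j, ?_, ?_, by simpa using hl0.le, by rwa [abs_of_nonneg hs]⟩
          · rw [abs_of_nonneg hs]; linarith
          · rw [abs_of_nonneg hs]; linarith
        · refine ⟨a * L - l / 4, ?_, ?_, ?_, by rwa [abs_of_nonneg hs]⟩
          · rw [abs_of_nonneg (by linarith)]; linarith
          · rw [abs_of_nonneg (by linarith)]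
          · rw [abs_le]; constructor <;> linarith
    · rw [abs_of_neg hs] at hxa
      rcases le_or_gt (-(l / 4)) (X j) with h1 | h1
      · refine ⟨-(l / 4), ?_, ?_, ?_, by rwa [abs_of_neg hs]⟩
        · rw [abs_neg, abs_of_pos (by positivity)]
        · rw [abs_neg, abs_of_pos (by positivity)]; linarith
        · rw [abs_le]; constructor <;> linarith
      · rcases le_or_gt (-(a * L - l / 4)) (X j) with h2 | h2
        · refine ⟨X j, ?_, ?_, by simpa using hl0.le, by rwa [abs_of_neg hs]⟩
          · rw [abs_of_neg hs]; linarith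
          · rw [abs_of_neg hs]; linarith
        · refine ⟨-(a * L - l / 4), ?_, ?_, ?_, by rwa [abs_of_neg hs]⟩
          · rw [abs_neg, abs_of_nonneg (by linarith)]; linarith
          · rw [abs_neg, abs_of_nonneg (by linarith)]
          · rw [abs_le]; constructor <;> linarith
  choose! x' hx' using hlev
  -- bad sets
  set B : ℕ → Set ℝ := fun j => {v : ℝ | T ≤ v ∧ v ≤ 2 * T ∧ ∀ g : ℂ, |g.re - x' j| ≤ κ * Real.log T →
    |g.im - v| ≤ κ * Real.log T → EE a g ≠ 0 → Real.log ‖EE a g‖ < pot a g - A' * Real.log T} with hB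
  set Bd : ℕ → Finset ℕ := fun j => (Finset.range N).filter fun i => Set.Ico (V i) (V i + l) ⊆ B j with hBd
  have hcard : ∀ j ∈ Finset.range (J + 1), ((Bd j).card : ℝ) * l ≤ δ * T := by
    intro j hj
    obtain ⟨k1, k2, _, _⟩ := hx' j hj
    have hvol := hgpt T e2 (x' j) k1 k2
    have h1 : volume (⋃ i ∈ Bd j, Set.Ico (V i) (V i + l)) = ∑ i ∈ Bd j, volume (Set.Ico (V i) (V i + l)) := by
      apply measure_biUnion_finset
      · intro i _ k _ hik
        rw [Function.onFun, Set.disjoint_left]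
        intro y hy hz
        rw [Set.mem_Ico] at hy hz
        simp only [hV] at hy hz
        rcases lt_or_gt_of_ne hik with h | h
        · have h2 : (i : ℝ) + 1 ≤ k := by exact_mod_cast h
          nlinarith [hy.2, hz.1]
        · have h2 : (k : ℝ) + 1 ≤ i := by exact_mod_cast h
          nlinarith [hy.1, hz.2]
      · intro i _
        exact measurableSet_Ico
    have h2 : volume (⋃ i ∈ Bd j, Set.Ico (V i) (V i + l)) ≤ ENNReal.ofReal (δ * T) := by
      refine (measure_mono ?_).trans hvol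
      intro y hy
      simp only [Set.mem_iUnion] at hy
      obtain ⟨i, hi, hy⟩ := hy
      simp only [hBd, Finset.mem_filter] at hi
      exact hi.2 hy
    rw [h1] at h2
    have h3 : ∀ i : ℕ, volume (Set.Ico (V i) (V i + l)) = ENNReal.ofReal l := by
      intro i
      rw [Real.volume_Ico]
      congr 1
      ring
    simp_rw [h3] at h2
    rw [Finset.sum_const, nsmul_eq_mul, ← ENNReal.ofReal_natCast, ← ENNReal.ofReal_mul (by positivity)] at h2
    exact (ENNReal.ofReal_le_ofReal_iff (by positivity)).1 h2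
  set G : ℝ := 300 * κ ^ 4 / a * L ^ 4 with hG
  have hG0 : 0 ≤ G := by positivity
  set F : ℝ := C * L ^ 4 with hF
  have hF0 : 0 ≤ F := by positivity
  -- bound of a cell
  have hVT : ∀ i ∈ Finset.range (N + 1), T ≤ V i ∧ V i ≤ 2 * T := by
    intro i hi
    have hi1 : (i : ℝ) ≤ N := by
      have := Finset.mem_range.1 hi
      exact_mod_cast (by omega : i ≤ N)
    have hi0 : (0 : ℝ) ≤ i := Nat.cast_nonneg i
    have h1 : (i : ℝ) * l ≤ N * l := by gcongr
    simp only [hV]
    constructor
    · have : 0 ≤ (i : ℝ) * l := by positivity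
      linarith
    · linarith
  have hcellb : ∀ i ∈ Finset.range (N + 1), ∀ j ∈ Finset.range (J + 1), ∫⁻ w in cell (i, j), D w ≤
      ENNReal.ofReal (G + if i = N ∨ i ∈ Bd j then F else 0) := by
    intro i hi j hj
    obtain ⟨k1, k2, k3, k4⟩ := hx' j hj
    obtain ⟨v1, v2⟩ := hVT i hi
    split_ifs with h
    · refine le_trans ?_ ((hfar T e1 (V i) v1 v2).trans (ENNReal.ofReal_le_ofReal (by linarith)))
      apply lintegral_mono_set
      rintro w ⟨⟨_, _, h3, h4⟩, h5, h6⟩
      exact ⟨h5, h6, h3, by linarith⟩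
    · push Not at h
      rw [add_zero]
      have hiN : i ∈ Finset.range N := by
        have := Finset.mem_range.1 hi
        exact Finset.mem_range.2 (by omega)
      have h1 : ¬ Set.Ico (V i) (V i + l) ⊆ B j := by
        intro h'
        apply h.2
        simp only [hBd, Finset.mem_filter]
        exact ⟨hiN, h'⟩
      rw [Set.not_subset] at h1
      obtain ⟨v, hv, hvB⟩ := h1
      rw [Set.mem_Ico] at hv
      have hiN1 : (i : ℝ) + 1 ≤ N := by exact_mod_cast Finset.mem_range.1 hiN
      have hvT : T ≤ v := by linarith [hv.1]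
      have hv2T : v ≤ 2 * T := by
        have h2 : ((i : ℝ) + 1) * l ≤ N * l := by gcongr
        have h3 := hv.2
        simp only [hV] at h3
        linarith
      have h2 : ∃ g : ℂ, |g.re - x' j| ≤ κ * Real.log T ∧ |g.im - v| ≤ κ * Real.log T ∧ EE a g ≠ 0 ∧
          pot a g - A' * Real.log T ≤ Real.log ‖EE a g‖ := by
        by_contra hcon
        push Not at hcon
        exact hvB ⟨hvT, hv2T, fun g q1 q2 q3 => hcon g q1 q2 q3⟩
      obtain ⟨g, q1, q2, q3, q4⟩ := h2
      have q1' : |g.re - x' j| ≤ l := q1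
      have q2' : |g.im - v| ≤ l := q2
      rw [abs_le] at q1' q2' k3
      refine le_trans ?_ (hsq T e3 (X j) (V i) g k4 v1 v2 ?_ ?_ q3 q4)
      · apply lintegral_mono_set
        exact Set.inter_subset_left
      · rw [abs_le]
        constructor
        · rw [mul_assoc]; linarith [q1'.1, k3.1]
        · rw [mul_assoc]; linarith [q1'.2, k3.2]
      · rw [abs_le]
        constructor
        · rw [mul_assoc]; linarith [q2'.1, hv.1]
        · rw [mul_assoc]; linarith [q2'.2, hv.2]
  -- the sum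
  calc ∫⁻ w in Rect (-(a * Real.log T)) (a * Real.log T) T (2 * T),
        ENNReal.ofReal (pot a w + A * Real.log T - Real.log ‖EE a w‖)
      ≤ ∫⁻ w in ⋃ p ∈ (Finset.range (N + 1) ×ˢ Finset.range (J + 1)), cell p, D w := lintegral_mono_set hcover
    _ ≤ ∑ p ∈ (Finset.range (N + 1) ×ˢ Finset.range (J + 1)), ∫⁻ w in cell p, D w := lint_biUnion_le _ _ _
    _ ≤ ∑ p ∈ (Finset.range (N + 1) ×ˢ Finset.range (J + 1)),
          ENNReal.ofReal (G + if p.1 = N ∨ p.1 ∈ Bd p.2 then F else 0) := by
        refine Finset.sum_le_sum fun p hp => ?_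
        rw [Finset.mem_product] at hp
        exact hcellb p.1 hp.1 p.2 hp.2
    _ = ENNReal.ofReal (∑ p ∈ (Finset.range (N + 1) ×ˢ Finset.range (J + 1)),
          (G + if p.1 = N ∨ p.1 ∈ Bd p.2 then F else 0)) := by
        rw [ENNReal.ofReal_sum_of_nonneg]
        intro p _
        split_ifs <;> positivity
    _ ≤ ENNReal.ofReal (ε * T * Real.log T ^ 3) := by
        apply ENNReal.ofReal_le_ofReal
        rw [Finset.sum_product_right]
        have hin : ∀ j ∈ Finset.range (J + 1), ∑ i ∈ Finset.range (N + 1),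
            (G + if i = N ∨ i ∈ Bd j then F else 0) ≤ (T / l + 1) * G + (δ * T / l + 1) * F := by
          intro j hj
          rw [Finset.sum_add_distrib, Finset.sum_const, Finset.card_range, nsmul_eq_mul, ← Finset.sum_filter,
            Finset.sum_const, nsmul_eq_mul]
          have c1 : ((N + 1 : ℕ) : ℝ) ≤ T / l + 1 := by
            push_cast
            have : (N : ℝ) ≤ T / l := by rw [le_div_iff₀ hl0]; exact hNl
            linarith
          have c2 : (((Finset.range (N + 1)).filter fun i => i = N ∨ i ∈ Bd j).card : ℝ) ≤ δ * T / l + 1 := by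
            have c3 : ((Finset.range (N + 1)).filter fun i => i = N ∨ i ∈ Bd j) ⊆ insert N (Bd j) := by
              intro i hi
              rw [Finset.mem_filter] at hi
              rw [Finset.mem_insert]
              exact hi.2
            have c4 := (Finset.card_le_card c3).trans (Finset.card_insert_le _ _)
            have c5 : ((Bd j).card : ℝ) ≤ δ * T / l := by
              rw [le_div_iff₀ hl0]
              exact hcard j hj
            have c6 : (((Finset.range (N + 1)).filter fun i => i = N ∨ i ∈ Bd j).card : ℝ) ≤ (Bd j).card + 1 := by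
              exact_mod_cast c4
            linarith
          gcongr
        refine (Finset.sum_le_sum hin).trans ?_
        rw [Finset.sum_const, Finset.card_range, nsmul_eq_mul]
        have d1 : ((J + 1 : ℕ) : ℝ) ≤ 3 * a / κ := by
          push_cast
          have d2 : (J : ℝ) ≤ 2 * a / κ := by rw [le_div_iff₀ hκ0]; exact hJκ
          have d3 : 1 ≤ a / κ := by rw [le_div_iff₀ hκ0]; linarith
          have d4 : 3 * a / κ = 2 * a / κ + a / κ := by ring
          linarith
        have d5 : T / l + 1 ≤ 2 * (T / l) := by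
          have : 1 ≤ T / l := by rw [le_div_iff₀ hl0]; linarith
          linarith
        have d6 : (T / l + 1) * G + (δ * T / l + 1) * F ≤ 2 * (T / l) * G + (δ * T / l + 1) * F := by gcongr
        have d7 : 0 ≤ 2 * (T / l) * G + (δ * T / l + 1) * F := by positivity
        have d8 : ((J + 1 : ℕ) : ℝ) * ((T / l + 1) * G + (δ * T / l + 1) * F) ≤
            (3 * a / κ) * (2 * (T / l) * G + (δ * T / l + 1) * F) := by gcongr
        refine d8.trans ?_
        have m1 : (3 * a / κ) * (2 * (T / l) * G) = 1800 * κ ^ 2 * (T * L ^ 3) := by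
          rw [hG, hl]
          field_simp
          ring
        have m2 : (3 * a / κ) * (δ * T / l * F) = ε / 3 * (T * L ^ 3) := by
          rw [hF, hl, hδ]
          field_simp
          ring
        have m3 : (3 * a / κ) * F = (3 * a / κ) * C * L * L ^ 3 := by
          rw [hF]; ring
        have hTL : 0 ≤ T * L ^ 3 := by positivity
        have m4 : (3 * a / κ) * F ≤ ε / 3 * (T * L ^ 3) := by
          rw [m3]
          have : (3 * a / κ) * C * L * L ^ 3 ≤ ε / 3 * T * L ^ 3 := by gcongr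
          linarith
        have m5 : 1800 * κ ^ 2 * (T * L ^ 3) ≤ ε / 3 * (T * L ^ 3) := by
          have : 1800 * κ ^ 2 ≤ ε / 3 := by linarith
          gcongr
        have m6 : (3 * a / κ) * (2 * (T / l) * G + (δ * T / l + 1) * F) =
            (3 * a / κ) * (2 * (T / l) * G) + (3 * a / κ) * (δ * T / l * F) + (3 * a / κ) * F := by ring
        rw [m6, m1, m2]
        have m7 : ε * T * L ^ 3 = ε / 3 * (T * L ^ 3) + ε / 3 * (T * L ^ 3) + ε / 3 * (T * L ^ 3) := by ring
        rw [m7]
        linarith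

end Pool.Agent.J4H1.EQ
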